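import Pool.Agent.W394.BQN.Stm

/-!
# The Gaussian integers as `ℤ[X]/(X^2+1)`
-/

set_option autoImplicit false

open Polynomial

namespace Pool.Agent.W394.BQN

theorem gauss_data :
    ∃ (i : ℤ →+* GaussianInt) (r : ℤ[X] →+* GaussianInt), i.Finite ∧ Function.Surjective r ∧
      (∀ c, r c = 0 ↔ (X ^ 2 + 1 : ℤ[X]) ∣ c) ∧ ∀ v, r (C v) = i v := by
  have hI : (⟨0, 1⟩ : GaussianInt) ^ 2 = -1 := by
    rw [pow_two]
    ext <;> simp
  let i : ℤ →+* GaussianInt := Int.castRingHom GaussianInt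
  let r : ℤ[X] →+* GaussianInt := eval₂RingHom i (⟨0, 1⟩ : GaussianInt)
  have hrC : ∀ v, r (C v) = i v := fun v => by simp [r]
  have hrX : r X = ⟨0, 1⟩ := by simp [r]
  have hmul : ∀ a b : ℤ, r (C a + C b * X) = ⟨a, b⟩ := by
    intro a b
    rw [map_add, map_mul, hrC, hrC, hrX]
    simp only [i, eq_intCast]
    ext <;> simp
  have hmon : (X ^ 2 + 1 : ℤ[X]).Monic := by
    monicity!
  have hdeg : (X ^ 2 + 1 : ℤ[X]).degree = 2 := by
    compute_degree!
  have h0 : r (X ^ 2 + 1) = 0 := by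
    rw [map_add, map_pow, hrX, map_one, hI]
    simp
  refine ⟨i, r, ?_, ?_, ?_, hrC⟩
  · have hfin : Module.Finite ℤ GaussianInt := by
      refine ⟨⟨{1, ⟨0, 1⟩}, ?_⟩⟩
      rw [eq_top_iff]
      rintro w -
      have hw : w = w.re • (1 : GaussianInt) + w.im • (⟨0, 1⟩ : GaussianInt) := by
        rw [zsmul_eq_mul, zsmul_eq_mul]
        ext <;> simp
      rw [hw]
      refine Submodule.add_mem _ (Submodule.smul_mem _ _ (Submodule.subset_span (by simp)))
        (Submodule.smul_mem _ _ (Submodule.subset_span (by simp)))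
    exact RingHom.finite_algebraMap.mpr hfin
  · intro w
    exact ⟨C w.re + C w.im * X, by rw [hmul]⟩
  · intro c
    constructor
    · intro hc
      have h1 := modByMonic_add_div c (X ^ 2 + 1 : ℤ[X])
      have h2 : (c %ₘ (X ^ 2 + 1 : ℤ[X])).degree < 2 := by
        have := degree_modByMonic_lt c hmon
        rwa [hdeg] at this
      have h3 : (c %ₘ (X ^ 2 + 1 : ℤ[X])) =
          C ((c %ₘ (X ^ 2 + 1 : ℤ[X])).coeff 0) + C ((c %ₘ (X ^ 2 + 1 : ℤ[X])).coeff 1) * X := by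
        rw [add_comm (C _)]
        refine eq_X_add_C_of_degree_le_one ?_
        have h2 : (c %ₘ (X ^ 2 + 1 : ℤ[X])).degree < ((2 : ℕ) : WithBot ℕ) := h2
        rw [Polynomial.degree_lt_iff_coeff_zero] at h2
        change (c %ₘ (X ^ 2 + 1 : ℤ[X])).degree ≤ ((1 : ℕ) : WithBot ℕ)
        rw [Polynomial.degree_le_iff_coeff_zero]
        intro m hm
        refine h2 m ?_
        exact_mod_cast hm
      have h4 : r (c %ₘ (X ^ 2 + 1 : ℤ[X])) = 0 := by
        have : r (c %ₘ (X ^ 2 + 1 : ℤ[X]) + (X ^ 2 + 1 : ℤ[X]) * (c /ₘ (X ^ 2 + 1 : ℤ[X]))) = 0 := by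
          rw [h1, hc]
        rw [map_add, map_mul, h0, zero_mul, add_zero] at this
        exact this
      rw [h3, hmul] at h4
      have h5 : (c %ₘ (X ^ 2 + 1 : ℤ[X])).coeff 0 = 0 := congrArg Zsqrtd.re h4
      have h6 : (c %ₘ (X ^ 2 + 1 : ℤ[X])).coeff 1 = 0 := congrArg Zsqrtd.im h4
      rw [h5, h6] at h3
      rw [← modByMonic_eq_zero_iff_dvd hmon, h3]
      simp
    · rintro ⟨d, rfl⟩
      rw [map_mul, h0, zero_mul]

end Pool.Agent.W394.BQN
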