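import Pool.Agent.W394.BQN.Stm2
import Pool.Agent.W394.BQN.Gauss

/-!
# Assembly of the parts
-/

set_option autoImplicit false

open Polynomial TensorProduct

noncomputable section

namespace Pool.Agent.W394.BQN

open BQ

/-- every finitely generated projective module over every polynomial ring `A[X_i | i ∈ ι]`,
`ι` finite, is extended from `A` -/
def BassQuillen (A : Type) [CommRing A] : Prop :=
  ∀ (ι : Type) [Finite ι] (P : Type) [AddCommGroup P] [Module (MvPolynomial ι A) P]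
    [Module.Finite (MvPolynomial ι A) P] [Module.Projective (MvPolynomial ι A) P],
  ∃ (Q : Type) (_ : AddCommGroup Q) (_ : Module A Q),
    Nonempty (P ≃ₗ[MvPolynomial ι A] MvPolynomial ι A ⊗[A] Q)

/-- every finitely generated projective module over every polynomial ring `A[X_i | i ∈ ι]`,
`ι` finite, is free -/
def AllFree (A : Type) [CommRing A] : Prop :=
  ∀ (ι : Type) [Finite ι] (P : Type) [AddCommGroup P] [Module (MvPolynomial ι A) P]
    [Module.Finite (MvPolynomial ι A) P] [Module.Projective (MvPolynomial ι A) P],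
  Module.Free (MvPolynomial ι A) P

/-- the ideal of `V[z][x_0,...,x_n]` generated by `x_0 ⋯ x_n - u(z)` -/
def hsIdeal (V : Type) [CommRing V] (u : V[X]) (n : ℕ) : Ideal (MvPolynomial (Fin (n + 1)) V[X]) :=
  Ideal.span {∏ i, MvPolynomial.X i - MvPolynomial.C u}

/-- the ring `V[z,x_0,...,x_n]/(x_0 ⋯ x_n - u(z))` -/
def HS (V : Type) [CommRing V] (u : V[X]) (n : ℕ) : Type :=
  MvPolynomial (Fin (n + 1)) V[X] ⧸ hsIdeal V u n

instance (V : Type) [CommRing V] (u : V[X]) (n : ℕ) : CommRing (HS V u n) :=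
  Ideal.Quotient.commRing (hsIdeal V u n)

/-- the ring `V[z]/(u)` -/
def QR (V : Type) [CommRing V] (u : V[X]) : Type := V[X] ⧸ Ideal.span {u}

instance (V : Type) [CommRing V] (u : V[X]) : CommRing (QR V u) :=
  Ideal.Quotient.commRing (Ideal.span {u})

theorem isLocGood_of_prime {n : ℕ} {V D : Type} [CommRing V] [IsDomain V]
    [IsPrincipalIdealRing V] [CommRing D] {j : V →+* D} (h : GoodN n V D j)
    (q : Ideal D) [hq : q.IsPrime] : IsLocGood (Localization.AtPrime q) := by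
  let e : D ≃+* MvPolynomial (Fin 0) D := (MvPolynomial.isEmptyRingEquiv D (Fin 0)).symm
  let q' : Ideal (MvPolynomial (Fin 0) D) := q.comap (e.symm : MvPolynomial (Fin 0) D →+* D)
  have hq' : q'.IsPrime := Ideal.comap_isPrime _ q
  have hmap : q.primeCompl.map (e : D →* MvPolynomial (Fin 0) D) = q'.primeCompl := by
    ext s
    constructor
    · rintro ⟨t, ht, rfl⟩ h
      apply ht
      have h1 : e.symm (e t) ∈ q := h
      rwa [e.symm_apply_apply] at h1
    · intro hs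
      exact ⟨e.symm s, hs, e.apply_symm_apply s⟩
  exact ⟨V, inferInstance, inferInstance, inferInstance, n, D, inferInstance, j, h, 0, q', hq',
      ⟨IsLocalization.ringEquivOfRingEquiv (Localization.AtPrime q) (Localization.AtPrime q') e
        hmap⟩⟩

/-- the rings `V[z,x_0,...,x_n]/(x_0 ⋯ x_n - (z^e - π))` -/
theorem eisenstein (hLOC : S_LOC) (hEIS : S_EIS) (hTOW : S_TOW) (V : Type) [CommRing V]
    [IsDomain V] [IsPrincipalIdealRing V] [IsLocalRing V] (π : V) (hπ : Prime π) (e : ℕ)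
    (he : 0 < e) (n : ℕ) :
    ∃ j : V →+* Semi V[X] (X ^ e - C π) n, GoodN n V (Semi V[X] (X ^ e - C π) n) j := by
  obtain ⟨W, i1, i2, i3, i4, i, r, h1, h2, h3, h4⟩ := hEIS V π hπ e he
  refine hTOW V (X ^ e - C π) ?_ W (hLOC W) i h1 r h2 h3 h4 n
  exact (monic_X_pow_sub_C π he.ne').ne_zero

/-- the rings `ℤ[z,x_0,...,x_n]/(x_0 ⋯ x_n - (z^2 + 1))` -/
theorem gauss (hEUC : S_EUC) (hTOW : S_TOW) (n : ℕ) :
    ∃ j : ℤ →+* Semi ℤ[X] (X ^ 2 + 1) n, GoodN n ℤ (Semi ℤ[X] (X ^ 2 + 1) n) j := by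
  obtain ⟨i, r, h1, h2, h3, h4⟩ := gauss_data
  refine hTOW ℤ (X ^ 2 + 1) ?_ GaussianInt (hEUC GaussianInt) i h1 r h2 h3 h4 n
  have hm : (X ^ 2 + 1 : ℤ[X]).Monic := by monicity!
  exact hm.ne_zero

theorem example_local (hLOC : S_LOC) (hEIS : S_EIS) (hTOW : S_TOW) (hDIM : S_DIM) (p : ℕ)
    (hp : p.Prime) (e : ℕ) (he : 0 < e) (n : ℕ) :
    ∃ (B : Type) (_ : CommRing B) (_ : IsLocalRing B), IsLocGood B ∧ CharZero B ∧
      ringKrullDim B = ((n + 2 : ℕ) : WithBot ℕ∞) ∧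
      ∃ (x : Fin (n + 1) → B) (z : B),
        IsLocalRing.maximalIdeal B = Ideal.span (Set.range x ∪ {z}) ∧
        (p : B) = z ^ e - ∏ i, x i := by
  have : Fact p.Prime := ⟨hp⟩
  obtain ⟨q, hq, h1, h2, x, z, h3, h4⟩ := hDIM p e he n
  have hpr : Prime (p : ℤ_[p]) := PadicInt.prime_p
  obtain ⟨j, hj⟩ := eisenstein hLOC hEIS hTOW ℤ_[p] (p : ℤ_[p]) hpr e he n
  exact ⟨Localization.AtPrime q, inferInstance, inferInstance, isLocGood_of_prime hj q, h1, h2,
    x, z, h3, h4⟩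

/-- the main result -/
def Main : Prop :=
  (∀ (n : ℕ) (V D : Type) [CommRing V] [IsDomain V] [IsPrincipalIdealRing V] [CommRing D]
    (j : V →+* D), GoodN n V D j → IsRegularRing D ∧ AllFree D) ∧
  (∀ (B : Type) [CommRing B], IsLocGood B → IsRegularLocalRing B) ∧
  (∀ (A : Type) [CommRing A],
    (∀ (m : Ideal A) [m.IsMaximal], IsLocGood (Localization.AtPrime m)) → BassQuillen A) ∧
  (∀ (V : Type) [CommRing V] [IsDedekindDomain V] (u : V[X]), u.Monic → ∀ n : ℕ, 0 < n →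
    (IsRegularRing (HS V u n) ↔ IsRegularRing (QR V u)) ∧
    (IsRegularRing (HS V u n) → BassQuillen (HS V u n))) ∧
  (∀ (V : Type) [CommRing V] [IsDomain V] [IsPrincipalIdealRing V] [IsLocalRing V] (u : V[X]),
    u.Monic → IsDedekindDomain (QR V u) → ∀ n : ℕ, AllFree (HS V u n)) ∧
  (∀ n : ℕ, AllFree (HS ℤ (X ^ 2 + 1) n)) ∧
  (∀ p : ℕ, p.Prime → ∀ e : ℕ, 0 < e → ∀ n : ℕ,
    ∃ (B : Type) (_ : CommRing B) (_ : IsLocalRing B), IsLocGood B ∧ CharZero B ∧
      ringKrullDim B = ((n + 2 : ℕ) : WithBot ℕ∞) ∧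
      ∃ (x : Fin (n + 1) → B) (z : B),
        IsLocalRing.maximalIdeal B = Ideal.span (Set.range x ∪ {z}) ∧
        (p : B) = z ^ e - ∏ i, x i)

theorem assemble2 (hLOC : S_LOC) (hEUC : S_EUC) (hREG : S_REG) (hFIN : S_FIN) (hEIS : S_EIS)
    (hTOW : S_TOW) (hDIM : S_DIM) (hDVR : S_DVR) (hLOCG : S_LOCG) (hCONV : S_CONV) : Main := by
  refine ⟨?_, hFIN.1, hFIN.2.1, ?_, ?_, ?_, example_local hLOC hEIS hTOW hDIM⟩
  · intro n V D _ _ _ _ j h
    exact ⟨hREG n V D j h, hFIN.2.2 n V D j h⟩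
  · intro V _ _ u hu n hn
    refine ⟨⟨fun h => hCONV V u hu n hn h, fun hreg => ?_⟩, fun h => ?_⟩
    · change IsRegularRing (Semi V[X] u n)
      rw [isRegularRing_iff]
      intro q _
      exact hFIN.1 _ (hLOCG V u hu hreg n q)
    · have hreg : IsRegularRing (V[X] ⧸ Ideal.span {u}) := hCONV V u hu n hn h
      change BassQuillen (Semi V[X] u n)
      refine hFIN.2.1 _ ?_
      intro m hm
      exact hLOCG V u hu hreg n m
  · intro V _ _ _ _ u hu hded n
    obtain ⟨j, hj⟩ := hDVR V u hu hded n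
    exact hFIN.2.2 n V _ j hj
  · intro n
    obtain ⟨j, hj⟩ := gauss hEUC hTOW n
    exact hFIN.2.2 n ℤ _ j hj

end Pool.Agent.W394.BQN
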