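import Pool.Agent.H94R2.BQ.X

/-!
# Bass-Quillen for iterated affine modifications: definitions and statements of the parts
-/

set_option autoImplicit false

open Polynomial

noncomputable section

namespace Pool.Agent.W394.BQN

open BQ

/-- the products of elementary `2 × 2` matrices -/
def E2 (R : Type) [CommRing R] : Submonoid (Matrix (Fin 2) (Fin 2) R) :=
  Submonoid.closure {M | (∃ c : R, M = !![1, c; 0, 1]) ∨ (∃ c : R, M = !![1, 0; c, 1])}

/-- the products of elementary and invertible diagonal `2 × 2` matrices -/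
def GG (R : Type) [CommRing R] : Submonoid (Matrix (Fin 2) (Fin 2) R) :=
  Submonoid.closure {M | (∃ c : R, M = !![1, c; 0, 1]) ∨ (∃ c : R, M = !![1, 0; c, 1]) ∨
    (∃ u v : R, IsUnit u ∧ IsUnit v ∧ M = !![u, 0; 0, v])}

/-- every unimodular row of length two can be transformed into `(1, 0)` by elementary
operations -/
def E2T (R : Type) [CommRing R] : Prop :=
  ∀ a b : R, IsCoprime a b →
    ∃ M ∈ E2 R, a * M 0 0 + b * M 1 0 = 1 ∧ a * M 0 1 + b * M 1 1 = 0

/-- `C/(u)` is, over `V`, a polynomial ring `W[t_1,...,t_l]` over a principal ideal domain `W`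
which is a finitely generated `V`-module and over which elementary operations act transitively
on unimodular rows -/
def NodeData (V C : Type) [CommRing V] [CommRing C] (j : V →+* C) (u : C) : Prop :=
  u ≠ 0 ∧ ∃ (W : Type) (_ : CommRing W) (_ : IsDomain W) (_ : IsPrincipalIdealRing W)
    (i : V →+* W) (l : ℕ) (r : C →+* MvPolynomial (Fin l) W),
    E2T W ∧ i.Finite ∧ Function.Surjective r ∧ (∀ c, r c = 0 ↔ u ∣ c) ∧
    ∀ v, r (j v) = MvPolynomial.C (i v)

/-- the `V`-algebra `D` is obtained from a polynomial ring `V[t_1,...,t_k]` by `n` steps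
`C ↦ C[x,y]/(xy-u)`, where in each step `u` is as in `NodeData` -/
def GoodN : ℕ → (V : Type) → [CommRing V] → (D : Type) → [CommRing D] → (V →+* D) → Prop
  | 0, V, _, D, _, j => ∃ (k : ℕ) (e : MvPolynomial (Fin k) V ≃+* D),
      ∀ v, e (MvPolynomial.C v) = j v
  | n + 1, V, _, D, _, j => ∃ (C : Type) (_ : CommRing C) (j₀ : V →+* C) (u : C)
      (e : Node C u ≃+* D), GoodN n V C j₀ ∧ NodeData V C j₀ u ∧ ∀ v, e (Node.j u (j₀ v)) = j v

/-! ### the parts -/

/-- local rings -/
def S_LOC : Prop := ∀ (R : Type) [CommRing R] [IsLocalRing R], E2T R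

/-- Euclidean domains -/
def S_EUC : Prop := ∀ (R : Type) [EuclideanDomain R], E2T R

/-- matrices of determinant one over a principal ideal domain with `E2T` lift along surjections -/
def S_LIFT0 : Prop := ∀ (R : Type) [CommRing R] [IsDomain R] [IsPrincipalIdealRing R], E2T R →
  ∀ (A : Type) [CommRing A] (q : A →+* R), Function.Surjective q →
  ∀ (s : ℕ) (M : Matrix (Fin s) (Fin s) R), M.det = 1 →
    ∃ N : Matrix (Fin s) (Fin s) A, N.det = 1 ∧ N.map q = M

/-- diagonal matrices can be moved to the end -/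
def S_V1 : Prop := ∀ (R : Type) [CommRing R] (a b : R),
  (∃ M ∈ GG R, IsUnit (a * M 0 0 + b * M 1 0)) →
    ∃ M ∈ E2 R, a * M 0 0 + b * M 1 0 = 1 ∧ a * M 0 1 + b * M 1 1 = 0

/-- making the leading coefficient invertible -/
def S_V2 : Prop := ∀ (D : Type) [CommRing D] [IsDomain D] [IsPrincipalIdealRing D], E2T D →
  ∀ (p r x y : D[X]), p * x + r * y ∈ S2 D →
    ∃ M ∈ GG (VV D), ∃ p' r' : D[X], IsUnit p'.leadingCoeff ∧
      algebraMap D[X] (VV D) p' =
        algebraMap D[X] (VV D) p * M 0 0 + algebraMap D[X] (VV D) r * M 1 0 ∧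
      algebraMap D[X] (VV D) r' =
        algebraMap D[X] (VV D) p * M 0 1 + algebraMap D[X] (VV D) r * M 1 1

/-- making the trailing coefficient invertible, too -/
def S_V3 : Prop := ∀ (D : Type) [CommRing D] [IsDomain D] [IsPrincipalIdealRing D], E2T D →
  ∀ (p r x y : D[X]), p * x + r * y ∈ S2 D → IsUnit p.leadingCoeff →
    ∃ M ∈ GG (VV D), ∃ p' r' : D[X], IsUnit p'.leadingCoeff ∧ IsUnit p'.trailingCoeff ∧
      algebraMap D[X] (VV D) p' =
        algebraMap D[X] (VV D) p * M 0 0 + algebraMap D[X] (VV D) r * M 1 0 ∧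
      algebraMap D[X] (VV D) r' =
        algebraMap D[X] (VV D) p * M 0 1 + algebraMap D[X] (VV D) r * M 1 1

/-- assembly: the property passes to `VV D` -/
def S_VV : Prop := ∀ (D : Type) [CommRing D] [IsDomain D] [IsPrincipalIdealRing D], E2T D →
  E2T (VV D)

/-- lifting matrices over polynomial rings (adaptation of `BQ.lift_mv`) -/
def S_LIFT : Prop := ∀ (n : ℕ) (A : Type) [CommRing A] [IsDomain A]
  (W : Type) [CommRing W] [IsDomain W] [IsPrincipalIdealRing W], E2T W →
  ∀ (q : A →+* W), Function.Surjective q → ∀ (s : ℕ)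
    (γ : Matrix (Fin s) (Fin s) (MvPolynomial (Fin n) W)), γ.det = 1 →
    ∃ Δ : Matrix (Fin s) (Fin s) (MvPolynomial (Fin n) A), Δ.det = 1 ∧
      Δ.map (MvPolynomial.map q) = γ

/-- decomposition of Laurent matrices (adaptation of `BQ.dec_mv`) -/
def S_DEC : Prop := ∀ (n : ℕ) (A : Type) [CommRing A] [IsDomain A],
  (∀ m, IdemFree (MvPolynomial (Fin m) A)) →
  ∀ (W : Type) [CommRing W] [IsDomain W] [IsPrincipalIdealRing W], E2T W →
  ∀ (q : A →+* W), Function.Surjective q →
    Dec (MvPolynomial.map q : MvPolynomial (Fin n) A →+* MvPolynomial (Fin n) W)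

/-- denominators -/
def S_INT : Prop := ∀ (V W : Type) [CommRing V] [IsDomain V] [CommRing W] [IsDomain W]
  (i : V →+* W), i.Finite → ∀ f ∈ S2 W, ∃ g ∈ S2 V, f ∣ g.map i

/-- the induced map `VV V → VV W` -/
def S_QV : Prop := ∀ (V W : Type) [CommRing V] [IsDomain V] [CommRing W] [IsDomain W]
  (i : V →+* W), i.Finite → ∃ i' : VV V →+* VV W, i'.Finite ∧
    ∀ f : V[X], i' (algebraMap V[X] (VV V) f) = algebraMap W[X] (VV W) (f.map i)

/-- `LocRel` gives a localisation -/
def S_LR : Prop := ∀ (V C Ω : Type) [CommRing V] [IsDomain V] [CommRing C] [CommRing Ω]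
  (j : V →+* C) (ι : C[X] →+* Ω), LocRel j ι →
    ∀ (B : Type) [CommRing B] (φ : C[X] →+* B), (∀ f ∈ S2 V, IsUnit (φ (f.map j))) →
      ∃ φ' : Ω →+* B, ∀ c, φ' (ι c) = φ c

/-- the node data pass to the localisation -/
def S_ND : Prop := ∀ (V C Ω : Type) [CommRing V] [IsDomain V] [IsPrincipalIdealRing V]
  [CommRing C] [IsDomain C] [CommRing Ω] [IsDomain Ω] (j : V →+* C) (ι : C[X] →+* Ω)
  (j' : VV V →+* Ω), LocRel j ι →
  (∀ f : V[X], j' (algebraMap V[X] (VV V) f) = ι (f.map j)) →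
  ∀ u : C, NodeData V C j u → NodeData (VV V) Ω j' (ι (Polynomial.C u))

/-- base change for `GoodN` -/
def S_LG : Prop := ∀ (n : ℕ) (V D : Type) [CommRing V] [IsDomain V] [IsPrincipalIdealRing V]
  [CommRing D] (j : V →+* D), GoodN n V D j →
    IsDomain D ∧ ∃ (Ω : Type) (_ : CommRing Ω) (_ : IsDomain Ω) (ι : D[X] →+* Ω)
      (j' : VV V →+* Ω), LocRel j ι ∧ GoodN n (VV V) Ω j' ∧
      ∀ f : V[X], j' (algebraMap V[X] (VV V) f) = ι (f.map j)

/-- the induction step -/
def S_NS : Prop := ∀ (V C Ω : Type) [CommRing V] [IsDomain V] [IsPrincipalIdealRing V]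
  [CommRing C] [IsDomain C] [CommRing Ω] (j : V →+* C) (ι : C[X] →+* Ω) (u : C),
  LocRel j ι → IdemFree C → IdemFree Ω → NodeData V C j u → IdemFree (Node C u)

/-- the main theorem: all finitely generated projective modules are free -/
def S_MAIN : Prop := ∀ (m n : ℕ) (V D : Type) [CommRing V] [IsDomain V] [IsPrincipalIdealRing V]
  [CommRing D] (j : V →+* D), GoodN n V D j → IdemFree (MvPolynomial (Fin m) D)

/-- regularity -/
def S_REG : Prop := ∀ (n : ℕ) (V D : Type) [CommRing V] [IsDomain V] [IsPrincipalIdealRing V]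
  [CommRing D] (j : V →+* D), GoodN n V D j → IsRegularRing D

/-- a local ring which is a localisation of a ring `D[t_1,...,t_k]`, `D` as in `GoodN`, at a prime
ideal -/
def IsLocGood (B : Type) [CommRing B] : Prop :=
  ∃ (V : Type) (_ : CommRing V) (_ : IsDomain V) (_ : IsPrincipalIdealRing V) (n : ℕ)
    (D : Type) (_ : CommRing D) (j : V →+* D) (_ : GoodN n V D j) (k : ℕ)
    (q : Ideal (MvPolynomial (Fin k) D)) (_ : q.IsPrime),
    Nonempty (B ≃+* Localization.AtPrime q)

/-- passage to local rings and rings which are locally of this kind (adaptation of `BQ.Final`) -/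
def S_FIN : Prop :=
  (∀ (B : Type) [CommRing B], IsLocGood B → IsRegularLocalRing B) ∧
  (∀ (A : Type) [CommRing A],
      (∀ (m : Ideal A) [m.IsMaximal], IsLocGood (Localization.AtPrime m)) →
      ∀ (ι : Type) [Finite ι] (P : Type) [AddCommGroup P] [Module (MvPolynomial ι A) P]
        [Module.Finite (MvPolynomial ι A) P] [Module.Projective (MvPolynomial ι A) P],
      ∃ (Q : Type) (_ : AddCommGroup Q) (_ : Module A Q),
        Nonempty (P ≃ₗ[MvPolynomial ι A] TensorProduct A (MvPolynomial ι A) Q)) ∧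
  (∀ (n : ℕ) (V D : Type) [CommRing V] [IsDomain V] [IsPrincipalIdealRing V]
    [CommRing D] (j : V →+* D), GoodN n V D j → ∀ (ι : Type) [Finite ι]
    (P : Type) [AddCommGroup P] [Module (MvPolynomial ι D) P]
    [Module.Finite (MvPolynomial ι D) P] [Module.Projective (MvPolynomial ι D) P],
    Module.Free (MvPolynomial ι D) P)

/-- totally ramified extensions: `V[z]/(z^e - π)` is a local principal ideal domain -/
def S_EIS : Prop := ∀ (V : Type) [CommRing V] [IsDomain V] [IsPrincipalIdealRing V]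
  [IsLocalRing V] (π : V), Prime π → ∀ e : ℕ, 0 < e →
  ∃ (W : Type) (_ : CommRing W) (_ : IsDomain W) (_ : IsPrincipalIdealRing W)
    (_ : IsLocalRing W) (i : V →+* W) (r : V[X] →+* W), i.Finite ∧ Function.Surjective r ∧
    (∀ c, r c = 0 ↔ (X ^ e - C π : V[X]) ∣ c) ∧ ∀ v, r (C v) = i v

/-- the tower over `(V[t_1,...,t_k][z], u)`, if `V[z]/(u)` is as in `NodeData` -/
def S_TOW : Prop := ∀ (V : Type) [CommRing V] [IsDomain V] [IsPrincipalIdealRing V]
  (u : V[X]), u ≠ 0 → ∀ (W : Type) [CommRing W] [IsDomain W] [IsPrincipalIdealRing W],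
    E2T W → ∀ (i : V →+* W), i.Finite → ∀ (r : V[X] →+* W), Function.Surjective r →
    (∀ c, r c = 0 ↔ u ∣ c) → (∀ v, r (C v) = i v) →
    ∀ (n : ℕ), ∃ j : V →+* Semi V[X] u n, GoodN n V (Semi V[X] u n) j

/-- the local ring at the origin of `ℤ_p[z,x_0,...,x_n]/(x_0 ⋯ x_n - (z^e - p))` -/
def S_DIM : Prop := ∀ (p : ℕ) [Fact p.Prime] (e : ℕ), 0 < e → ∀ n : ℕ,
  ∃ (q : Ideal (Semi (Polynomial ℤ_[p]) (X ^ e - C (p : ℤ_[p])) n)) (_ : q.IsPrime),
    CharZero (Localization.AtPrime q) ∧
    ringKrullDim (Localization.AtPrime q) = ((n + 2 : ℕ) : WithBot ℕ∞) ∧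
    ∃ (x : Fin (n + 1) → Localization.AtPrime q) (z : Localization.AtPrime q),
      IsLocalRing.maximalIdeal (Localization.AtPrime q) = Ideal.span (Set.range x ∪ {z}) ∧
      (p : Localization.AtPrime q) = z ^ e - ∏ i, x i

end Pool.Agent.W394.BQN
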