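import Pool.Agent.W394.BQN.Stm

/-!
# Bass-Quillen for the regular rings `V[z,x_0,...,x_n]/(x_0 ⋯ x_n - u(z))`: statements of the parts

`V` is a Dedekind domain, `u` a monic polynomial such that `V[z]/(u)` is regular.
-/

set_option autoImplicit false

open Polynomial

noncomputable section

namespace Pool.Agent.W394.BQN

open BQ

/-- semilocal rings -/
def S_SEM : Prop := ∀ (R : Type) [CommRing R] [Finite (MaximalSpectrum R)], E2T R

/-- prime ideals and local rings of a ring `B` which becomes isomorphic to `A` after inverting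
a set `M` of elements -/
def S_GL : Prop := ∀ (A B : Type) [CommRing A] [CommRing B] (ψ : A →+* B) (M : Submonoid A),
  (∀ a, ψ a = 0 → ∃ m ∈ M, m * a = 0) → (∀ b, ∃ m ∈ M, ∃ a, ψ m * b = ψ a) →
  (∀ (q' : Ideal B) [q'.IsPrime], (∀ m ∈ M, ψ m ∉ q') → ∃ (q : Ideal A) (_ : q.IsPrime),
    q = q'.comap ψ ∧ Nonempty (Localization.AtPrime q' ≃+* Localization.AtPrime q)) ∧
  (∀ (q : Ideal A) [q.IsPrime], (∀ m ∈ M, m ∉ q) → ∃ (q' : Ideal B) (_ : q'.IsPrime),
    q = q'.comap ψ ∧ Nonempty (Localization.AtPrime q ≃+* Localization.AtPrime q'))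

/-- unit factors of `u` can be dropped -/
def S_SLA : Prop := ∀ (C : Type) [CommRing C] (u v : C) (n : ℕ) (q : Ideal (Semi C (u * v) n))
  [q.IsPrime], Q.pr C (u * v) n (MvPolynomial.C v) ∉ q →
    ∃ (q' : Ideal (Semi C u n)) (_ : q'.IsPrime),
      Nonempty (Localization.AtPrime q ≃+* Localization.AtPrime q')

/-- where `u` is a unit, one gets a polynomial ring -/
def S_SLB : Prop := ∀ (C : Type) [CommRing C] (u : C) (n : ℕ) (q : Ideal (Semi C u n))
  [q.IsPrime], Q.pr C u n (MvPolynomial.C u) ∉ q →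
    ∃ (q' : Ideal (MvPolynomial (Fin n) C)) (_ : q'.IsPrime),
      Nonempty (Localization.AtPrime q ≃+* Localization.AtPrime q')

/-- base change to a localisation -/
def S_SLC : Prop := ∀ (C C' : Type) [CommRing C] [CommRing C'] [Algebra C C']
  (M : Submonoid C) [IsLocalization M C'] (u : C) (n : ℕ) (q : Ideal (Semi C u n)) [q.IsPrime],
  (∀ m ∈ M, Q.pr C u n (MvPolynomial.C m) ∉ q) →
    ∃ (q' : Ideal (Semi C' (algebraMap C C' u) n)) (_ : q'.IsPrime),
      (∀ c : C, Q.pr C u n (MvPolynomial.C c) ∈ q ↔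
        Q.pr C' (algebraMap C C' u) n (MvPolynomial.C (algebraMap C C' c)) ∈ q') ∧
      Nonempty (Localization.AtPrime q ≃+* Localization.AtPrime q')

/-- regular local rings of dimension at most one -/
def S_RD : Prop := ∀ (S : Type) [CommRing S] [IsRegularLocalRing S], ringKrullDim S ≤ 1 →
  IsDomain S ∧ IsPrincipalIdealRing S

/-- local principal ideal domains and a monic polynomial with Dedekind quotient ring -/
def S_DVR : Prop := ∀ (V : Type) [CommRing V] [IsDomain V] [IsPrincipalIdealRing V]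
  [IsLocalRing V] (u : V[X]), u.Monic → IsDedekindDomain (V[X] ⧸ Ideal.span {u}) →
  ∀ n : ℕ, ∃ j : V →+* Semi V[X] u n, GoodN n V (Semi V[X] u n) j

/-- the irreducible factor through a given prime ideal -/
def S_FAC : Prop := ∀ (V : Type) [CommRing V] [IsDomain V] [IsPrincipalIdealRing V]
  (u : V[X]), u.Monic → IsRegularRing (V[X] ⧸ Ideal.span {u}) →
  ∀ (m : Ideal V[X]) [m.IsPrime], u ∈ m →
    ∃ u₁ w : V[X], u = u₁ * w ∧ u₁.Monic ∧ IsDedekindDomain (V[X] ⧸ Ideal.span {u₁}) ∧ w ∉ m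

/-- localisation of the coefficients -/
def S_RL : Prop := ∀ (V : Type) [CommRing V] (p : Ideal V) [p.IsPrime] (u : V[X]),
  IsRegularRing (V[X] ⧸ Ideal.span {u}) →
  IsRegularRing ((Localization.AtPrime p)[X] ⧸
    Ideal.span {u.map (algebraMap V (Localization.AtPrime p))})

/-- all local rings are good -/
def S_LOCG : Prop := ∀ (V : Type) [CommRing V] [IsDedekindDomain V] (u : V[X]),
  u.Monic → IsRegularRing (V[X] ⧸ Ideal.span {u}) →
  ∀ (n : ℕ) (q : Ideal (Semi V[X] u n)) [q.IsPrime], IsLocGood (Localization.AtPrime q)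

/-- if `V[z,x_0,...,x_n]/(x_0 ⋯ x_n - u(z))`, `n ≥ 1`, is regular, then so is `V[z]/(u)` -/
def S_CONV : Prop := ∀ (V : Type) [CommRing V] [IsDedekindDomain V] (u : V[X]),
  u.Monic → ∀ (n : ℕ), 0 < n → IsRegularRing (Semi V[X] u n) →
  IsRegularRing (V[X] ⧸ Ideal.span {u})

end Pool.Agent.W394.BQN
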